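import Mathlib
import Pool.Agent.Helper572.NilComm

set_option autoImplicit false

namespace Pool.Agent.Results.MP_79e160_al.UncountableOrOneSided

/-- `pow x n` is the `(n + 1)`-st power `x * x * ... * x` (with `n + 1` factors) in a ring
that need not have an identity element. -/
def pow {R : Type} [NonUnitalRing R] (x : R) (n : ℕ) : R := (fun z : R => z * x)^[n] x

/-- The zero ideal is the only nil two-sided ideal. -/
def HasNoNilIdeals (R : Type) [NonUnitalRing R] : Prop :=
  ∀ I : TwoSidedIdeal R, (∀ x ∈ I, ∃ n : ℕ, pow x n = 0) → I = ⊥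

/-- The zero ideal is the only nil right ideal. -/
def HasNoNilRightIdeals (R : Type) [NonUnitalRing R] : Prop :=
  ∀ I : AddSubgroup R, (∀ x ∈ I, ∀ r : R, x * r ∈ I) → (∀ x ∈ I, ∃ n : ℕ, pow x n = 0) → I = ⊥

/-- Every commutator `x y - y x` is nilpotent. -/
def CommutatorsNilpotent (R : Type) [NonUnitalRing R] : Prop :=
  ∀ x y : R, ∃ n : ℕ, pow (x * y - y * x) n = 0

open Pool.Agent.Helper572.NilComm in
/-- (1) An associative ring without nonzero nil right ideals whose commutators are all nilpotent is
commutative. (2) An associative algebra over an uncountable field without nonzero nil two-sided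
ideals whose commutators are all nilpotent is commutative. No identity element is assumed. -/
theorem result :
    (∀ (R : Type) [NonUnitalRing R], HasNoNilRightIdeals R → CommutatorsNilpotent R →
      ∀ x y : R, x * y = y * x) ∧
    (∀ (F : Type) [Field F] [Uncountable F] (R : Type) [NonUnitalRing R] [Module F R]
      [IsScalarTower F R R] [SMulCommClass F R R], HasNoNilIdeals R → CommutatorsNilpotent R →
      ∀ x y : R, x * y = y * x) := by
  constructor
  · intro R _ hnil hcomm x y
    have hred : ∀ a : R, a * a = 0 → a = 0 := by
      intro a ha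
      have h1 : (AddMonoidHom.mulLeft a).range = ⊥ := by
        apply hnil
        · rintro _ ⟨r, rfl⟩ s
          exact ⟨r * s, by simp [mul_assoc]⟩
        · rintro _ ⟨r, rfl⟩
          exact xr_nilpotent a r ha (hcomm a r)
      have h2 : ∀ r : R, a * r = 0 := by
        intro r
        have : a * r ∈ (AddMonoidHom.mulLeft a).range := ⟨r, rfl⟩
        rw [h1] at this
        simpa using this
      have h3 : AddSubgroup.zmultiples a = ⊥ := by
        apply hnil
        · intro z hz r
          obtain ⟨k, rfl⟩ := AddSubgroup.mem_zmultiples_iff.mp hz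
          rw [smul_mul_assoc, h2, smul_zero]
          exact AddSubgroup.zero_mem _
        · intro z hz
          obtain ⟨k, rfl⟩ := AddSubgroup.mem_zmultiples_iff.mp hz
          refine ⟨1, ?_⟩
          show (k • a) * (k • a) = 0
          rw [smul_mul_assoc, h2, smul_zero]
      have h4 : a ∈ AddSubgroup.zmultiples a := AddSubgroup.mem_zmultiples a
      rw [h3] at h4
      simpa using h4
    exact sub_eq_zero.mp (eq_zero_of_nilpotent hred _ (hcomm x y))
  · intro F _ _ R _ _ _ _ hnil hcomm x y
    have hnil' : ∀ I : TwoSidedIdeal R,
        (∀ x ∈ I, ∃ m : ℕ, (fun z : R => z * x)^[m] x = 0) → ∀ x ∈ I, x = 0 := by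
      intro I hI x hx
      have h := hnil I hI
      rw [h] at hx
      exact (TwoSidedIdeal.mem_bot R).mp hx
    have hred : ∀ a : R, a * a = 0 → a = 0 := fun a ha =>
      square_zero_of (F := F) hnil' a ha (fun r => xr_nilpotent a r ha (hcomm a r))
    exact sub_eq_zero.mp (eq_zero_of_nilpotent hred _ (hcomm x y))

end Pool.Agent.Results.MP_79e160_al.UncountableOrOneSided
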